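import Mathlib

/-!
# Countably pracompact Baire paratopological groups are 2-pseudocompact (Q2)
-/

set_option autoImplicit false

open Set Topology

namespace Pool.Agent.Results.MP_39d387_al.CountablyPracompactQ2

/-- `X` is countably pracompact: there is a dense set `A` every infinite subset `B` of which has an
accumulation point in `X`, that is, a point all of whose neighbourhoods contain infinitely many
points of `B`. -/
def CountablyPracompact (X : Type*) [TopologicalSpace X] : Prop :=
  ∃ A : Set X, Dense A ∧ ∀ B : Set X, B ⊆ A → B.Infinite → ∃ x : X, ∀ V ∈ 𝓝 x, (B ∩ V).Infinite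

/-- `G` is 2-pseudocompact: for every decreasing sequence of nonempty open sets `U n`, the closures
of the sets `(U n)⁻¹` have a common point. -/
def TwoPseudocompact (G : Type*) [Group G] [TopologicalSpace G] : Prop :=
  ∀ U : ℕ → Set G, Antitone U → (∀ n, IsOpen (U n)) → (∀ n, (U n).Nonempty) →
    (⋂ n, closure (U n)⁻¹).Nonempty

/-- Every countably pracompact Baire paratopological group is 2-pseudocompact. -/
theorem result {G : Type*} [Group G] [TopologicalSpace G] [ContinuousMul G] [BaireSpace G]
    (hG : CountablyPracompact G) : TwoPseudocompact G := by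
  obtain ⟨A, hA, hacc⟩ := hG
  intro U hanti hopen hne
  -- the open dense sets
  let D : ℕ → Set G := fun n => ⋃ a ∈ A, (fun z => a⁻¹ * z) ⁻¹' U n
  have hDopen : ∀ n, IsOpen (D n) := fun n =>
    isOpen_biUnion fun a _ => (hopen n).preimage (continuous_const.mul continuous_id)
  have hDdense : ∀ n, Dense (D n) := by
    intro n
    obtain ⟨u, hu⟩ := hne n
    rw [dense_iff_inter_open]
    intro O hO hOne
    obtain ⟨o, ho⟩ := hOne
    have hO' : IsOpen ((fun z => z * u) ⁻¹' O) := hO.preimage (continuous_id.mul continuous_const)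
    have hO'ne : ((fun z => z * u) ⁻¹' O).Nonempty := ⟨o * u⁻¹, by simpa using ho⟩
    obtain ⟨a, ha, haA⟩ := hA.inter_open_nonempty _ hO' hO'ne
    refine ⟨a * u, ha, ?_⟩
    refine Set.mem_biUnion haA ?_
    simpa using hu
  have hinter : Dense (⋂ n, D n) := dense_iInter_of_isOpen hDopen hDdense
  obtain ⟨z, hz⟩ := hinter.nonempty
  rw [Set.mem_iInter] at hz
  have hz' : ∀ n, ∃ a ∈ A, a⁻¹ * z ∈ U n := by
    intro n
    have := hz n
    simp only [D, Set.mem_iUnion, Set.mem_preimage] at this
    obtain ⟨a, ha, h⟩ := this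
    exact ⟨a, ha, h⟩
  choose a haA haU using hz'
  -- an accumulation point of the sequence
  obtain ⟨c, hc⟩ : ∃ c : G, ∀ V ∈ 𝓝 c, {n | a n ∈ V}.Infinite := by
    by_cases hfin : (Set.range a).Finite
    · have _ : Finite (Set.range a) := hfin
      obtain ⟨c, hc⟩ := Finite.exists_infinite_fiber (Set.rangeFactorization a)
      refine ⟨c, fun V hV => ?_⟩
      refine (Set.infinite_coe_iff.1 hc).mono ?_
      intro n hn
      have h1 : a n = c := congrArg Subtype.val hn
      rw [Set.mem_setOf_eq, h1]
      exact mem_of_mem_nhds hV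
    · obtain ⟨c, hc⟩ := hacc (Set.range a) (by rintro _ ⟨n, rfl⟩; exact haA n) hfin
      refine ⟨c, fun V hV hcon => hc V hV ?_⟩
      refine (hcon.image a).subset ?_
      rintro _ ⟨⟨n, rfl⟩, hn⟩
      exact ⟨n, hn, rfl⟩
  refine ⟨z⁻¹ * c, Set.mem_iInter.2 fun m => ?_⟩
  rw [mem_closure_iff_nhds]
  intro O hO
  have hV : (fun y => z⁻¹ * y) ⁻¹' O ∈ 𝓝 c :=
    (continuous_const.mul continuous_id).continuousAt.preimage_mem_nhds hO
  obtain ⟨n, hn, hmn⟩ := (hc _ hV).exists_gt m
  refine ⟨z⁻¹ * a n, hn, ?_⟩
  rw [Set.mem_inv, mul_inv_rev, inv_inv]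
  exact hanti hmn.le (haU n)

end Pool.Agent.Results.MP_39d387_al.CountablyPracompactQ2
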