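import Pool.Agent.H11.OrderedParaConcrete

/-!
# A pseudocompact Baire paratopological group which is not 2-pseudocompact (Q1)

The group is the group of 2-adic integers `K` with the topology in which basic neighbourhoods of `x`
are the sets `{y : ‖y - x‖ < ε, f x ≤ f y}`, where `f : K → L` is a homomorphism with cofinal image
to a linearly ordered abelian group `L` in which every countable set is bounded above.
-/

set_option autoImplicit false

open Set Topology

namespace Pool.Agent.Results.MP_39d387_al.PseudocompactBaireQ1

universe u

/-- `X` is pseudocompact: every locally finite family of nonempty open subsets of `X` is finite. -/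
def Pseudocompact (X : Type u) [TopologicalSpace X] : Prop :=
  ∀ (ι : Type u) (U : ι → Set X), (∀ i, IsOpen (U i)) → (∀ i, (U i).Nonempty) →
    LocallyFinite U → Finite ι

/-- `G` is 2-pseudocompact: for every decreasing sequence of nonempty open sets `U n`, the closures
of the sets `(U n)⁻¹` have a common point. -/
def TwoPseudocompact (G : Type u) [Group G] [TopologicalSpace G] : Prop :=
  ∀ U : ℕ → Set G, Antitone U → (∀ n, IsOpen (U n)) → (∀ n, (U n).Nonempty) →
    (⋂ n, closure (U n)⁻¹).Nonempty

/-- There is a commutative Hausdorff paratopological group which is pseudocompact and Baire but not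
2-pseudocompact. -/
theorem result : ∃ (G : Type) (_ : CommGroup G) (_ : TopologicalSpace G),
    ContinuousMul G ∧ T2Space G ∧ BaireSpace G ∧ Pseudocompact G ∧ ¬ TwoPseudocompact G := by
  refine ⟨Pool.Agent.H11.OrderedPara.CE, inferInstance, inferInstance, inferInstance,
    inferInstance, ?_, ?_, ?_⟩
  · exact Pool.Agent.H11.OrderedPara.baireSpace _ Pool.Agent.H11.OrderedPara.ff_cofinal
      Pool.Agent.H11.OrderedPara.LL_bddAbove
  · intro ι U hU hne hlf
    exact Pool.Agent.H11.OrderedPara.finite_of_locallyFinite _
      Pool.Agent.H11.OrderedPara.ff_cofinal U hU hne hlf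
  · intro h
    obtain ⟨l0, hl0⟩ := Pool.Agent.H11.OrderedPara.exists_pos
    obtain ⟨U, hanti, hopen, hne, hempty⟩ := Pool.Agent.H11.OrderedPara.not_twoPseudocompact _
      Pool.Agent.H11.OrderedPara.ff_cofinal l0 hl0
    have h1 := h U hanti hopen hne
    rw [hempty] at h1
    exact not_nonempty_empty h1

end Pool.Agent.Results.MP_39d387_al.PseudocompactBaireQ1
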